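import Mathlib

/-!
# A set of positive reals with full difference set and null set of values `2x - y`
-/

namespace Pool.Agent.Results.MP_0f2923_nt.NullForm

open MeasureTheory Filter Topology

/-- the digit set `{0, 2, 6, 7, 10}` in base `19`. -/
def E0 : Finset ℤ := {0, 2, 6, 7, 10}

/-- the differences of digits, a complete residue system modulo `19`. -/
def D0 : Finset ℤ := {0, 1, -1, 2, -2, 3, -3, 4, -4, 5, -5, 6, -6, 7, -7, 8, -8, 10, -10}

/-- the values `2a - b` of digits; only `18` of them. -/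
def F0 : Finset ℤ := {-10, -7, -6, -3, -2, 0, 2, 4, 5, 6, 7, 8, 10, 12, 13, 14, 18, 20}

theorem F0_card : F0.card = 18 := by decide

theorem F0_mem : ∀ a ∈ E0, ∀ b ∈ E0, 2 * a - b ∈ F0 := by decide

theorem D0_rep : ∀ d ∈ D0, ∃ a ∈ E0, ∃ b ∈ E0, d = a - b := by decide

theorem D0_res (n : ℤ) : ∃ d ∈ D0, ∃ n' : ℤ, n = d + 19 * n' := by
  have h : ∀ r : Fin 19, ∃ d ∈ D0, (19 : ℤ) ∣ (r.val : ℤ) - d := by decide
  have h0 := Int.emod_nonneg n (by norm_num : (19 : ℤ) ≠ 0)
  have h1 := Int.emod_lt_of_pos n (by norm_num : (0 : ℤ) < 19)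
  obtain ⟨r, hr⟩ := Int.eq_ofNat_of_zero_le h0
  have hr19 : r < 19 := by omega
  obtain ⟨d, hd, c, hc⟩ := h ⟨r, hr19⟩
  refine ⟨d, hd, c + n / 19, ?_⟩
  simp only at hc
  omega

theorem E0_abs : ∀ a ∈ E0, |a| ≤ 20 := by decide
theorem D0_abs : ∀ a ∈ D0, |a| ≤ 10 := by decide
theorem F0_abs : ∀ a ∈ F0, |a| ≤ 20 := by decide

/-- the value of a digit sequence. -/
noncomputable def val (a : ℕ → ℤ) : ℝ := ∑' i : ℕ, (a i : ℝ) / 19 ^ (i + 1)

theorem geo_summable : Summable (fun i : ℕ => (20 : ℝ) / 19 ^ (i + 1)) := by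
  have h : Summable (fun i : ℕ => (20 / 19 : ℝ) * (1 / 19) ^ i) :=
    (summable_geometric_of_lt_one (by norm_num) (by norm_num)).mul_left _
  refine h.congr fun i => ?_
  rw [pow_succ, one_div, inv_pow]
  field_simp

theorem term_bound {a : ℕ → ℤ} (ha : ∀ i, |a i| ≤ 20) (i : ℕ) :
    ‖(a i : ℝ) / 19 ^ (i + 1)‖ ≤ 20 / 19 ^ (i + 1) := by
  rw [norm_div, norm_pow, Real.norm_eq_abs, Real.norm_eq_abs, abs_of_pos (by norm_num : (0:ℝ) < 19)]
  gcongr
  have : (|a i| : ℤ) ≤ 20 := ha i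
  have h2 : ((|a i| : ℤ) : ℝ) ≤ 20 := by exact_mod_cast this
  rwa [Int.cast_abs] at h2

theorem summable_val {a : ℕ → ℤ} (ha : ∀ i, |a i| ≤ 20) :
    Summable (fun i : ℕ => (a i : ℝ) / 19 ^ (i + 1)) :=
  Summable.of_norm_bounded geo_summable (term_bound ha)

theorem val_abs_le {a : ℕ → ℤ} (ha : ∀ i, |a i| ≤ 20) : |val a| ≤ 2 := by
  have h1 : ‖val a‖ ≤ ∑' i : ℕ, (20 : ℝ) / 19 ^ (i + 1) :=
    tsum_of_norm_bounded geo_summable.hasSum (term_bound ha)
  have h2 : ∑' i : ℕ, (20 : ℝ) / 19 ^ (i + 1) = 20 / 18 := by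
    have h : ∀ i : ℕ, (20 : ℝ) / 19 ^ (i + 1) = (20 / 19 : ℝ) * (1 / 19) ^ i := by
      intro i
      rw [pow_succ, one_div, inv_pow]
      field_simp
    simp_rw [h]
    rw [tsum_mul_left, tsum_geometric_of_lt_one (by norm_num) (by norm_num)]
    norm_num
  rw [h2] at h1
  rw [Real.norm_eq_abs] at h1
  linarith

theorem val_step {a : ℕ → ℤ} (ha : ∀ i, |a i| ≤ 20) :
    val a = ((a 0 : ℝ) + val (fun i => a (i + 1))) / 19 := by
  unfold val
  rw [(summable_val ha).tsum_eq_zero_add, add_div, ← tsum_div_const]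
  congr 1
  · norm_num
  · apply tsum_congr
    intro i
    rw [pow_succ _ (i + 1)]
    field_simp

/-- digit sequences over a digit set. -/
def Seqs (S : Finset ℤ) : Set (ℕ → ℤ) := {a | ∀ i, a i ∈ S}

/-- the attractor. -/
def Att (S : Finset ℤ) : Set ℝ := val '' Seqs S

theorem att_compact (S : Finset ℤ) (hS : ∀ a ∈ S, |a| ≤ 20) : IsCompact (Att S) := by
  have h1 : IsCompact (Seqs S) := by
    have : Seqs S = Set.pi Set.univ (fun _ : ℕ => (S : Set ℤ)) := by
      ext a; simp [Seqs]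
    rw [this]
    exact isCompact_univ_pi fun _ => S.finite_toSet.isCompact
  apply h1.image_of_continuousOn
  unfold val
  apply continuousOn_tsum (u := fun i : ℕ => (20 : ℝ) / 19 ^ (i + 1))
  · intro i
    apply Continuous.continuousOn
    have : Continuous (fun a : ℕ → ℤ => (a i : ℝ)) :=
      (continuous_of_discreteTopology : Continuous (fun z : ℤ => (z : ℝ))).comp (continuous_apply i)
    exact this.div_const _
  · exact geo_summable
  · intro i a ha
    exact term_bound (fun i => hS _ (ha i)) i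

/-- finite expansions of integers. -/
theorem expansion (k : ℕ) : ∀ n : ℤ, |n| ≤ 19 ^ k → ∃ c : ℕ → ℤ, (∀ i, c i ∈ D0) ∧
    n = ∑ i ∈ Finset.range (k + 1), c i * 19 ^ i := by
  induction k with
  | zero =>
    intro n hn
    simp only [pow_zero] at hn
    have h1 := abs_le.1 hn
    refine ⟨fun _ => n, fun _ => ?_, by simp⟩
    have : n = -1 ∨ n = 0 ∨ n = 1 := by omega
    rcases this with rfl | rfl | rfl <;> simp [D0]
  | succ k ih =>
    intro n hn
    obtain ⟨d, hd, n', hn'⟩ := D0_res n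
    have hd10 := D0_abs d hd
    have h2 : |n'| ≤ 19 ^ k := by
      have h3 := abs_le.1 hn
      have h4 := abs_le.1 hd10
      rw [pow_succ] at h3
      rw [abs_le]
      constructor
      · omega
      · omega
    obtain ⟨c, hc, hsum⟩ := ih n' h2
    refine ⟨fun i => match i with | 0 => d | i + 1 => c i, ?_, ?_⟩
    · intro i
      cases i with
      | zero => exact hd
      | succ i => exact hc i
    · rw [Finset.sum_range_succ']
      simp only [pow_zero, mul_one]
      rw [hn', hsum, Finset.mul_sum, add_comm]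
      congr 1
      apply Finset.sum_congr rfl
      intro i _
      rw [pow_succ]
      ring

theorem int_mem (k : ℕ) (n : ℤ) (hn : |n| ≤ 19 ^ k) :
    ∃ t ∈ Att D0, (n : ℝ) = 19 ^ (k + 1) * t := by
  obtain ⟨c, hc, hsum⟩ := expansion k n hn
  let d : ℕ → ℤ := fun j => if j < k + 1 then c (k - j) else 0
  refine ⟨val d, ⟨d, ?_, rfl⟩, ?_⟩
  · intro j
    show (if j < k + 1 then c (k - j) else 0) ∈ D0
    split_ifs
    · exact hc _
    · decide
  · have h1 : val d = ∑ j ∈ Finset.range (k + 1), (d j : ℝ) / 19 ^ (j + 1) := by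
      unfold val
      apply tsum_eq_sum
      intro j hj
      rw [Finset.mem_range] at hj
      have : d j = 0 := if_neg hj
      rw [this]
      simp
    rw [h1, hsum, Finset.mul_sum]
    push_cast
    rw [← Finset.sum_range_reflect]
    apply Finset.sum_congr rfl
    intro j hj
    rw [Finset.mem_range] at hj
    have hdj : d j = c (k - j) := if_pos hj
    have h2 : k + 1 - 1 - j = k - j := by omega
    rw [hdj, h2]
    have h3 : (19 : ℝ) ^ (k + 1) = 19 ^ (k - j) * 19 ^ (j + 1) := by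
      rw [← pow_add]
      congr 1
      omega
    rw [h3]
    field_simp

/-- every real number is in some dilate of the attractor of `D0`. -/
theorem real_mem (x : ℝ) : ∃ k : ℕ, ∃ t ∈ Att D0, x = 19 ^ k * t := by
  obtain ⟨c, hc⟩ : ∃ c : ℕ, |x| ≤ 19 ^ c := by
    obtain ⟨c, hc⟩ := pow_unbounded_of_one_lt |x| (by norm_num : (1 : ℝ) < 19)
    exact ⟨c, hc.le⟩
  refine ⟨c + 1, ?_⟩
  have hclosed : IsClosed ((fun t : ℝ => 19 ^ (c + 1) * t) '' Att D0) := by
    apply IsCompact.isClosed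
    exact (att_compact D0 (fun a ha => (D0_abs a ha).trans (by norm_num))).image
      (continuous_const.mul continuous_id)
  have hmem : ∀ N : ℕ, ((⌊19 ^ N * x⌋ : ℤ) : ℝ) / 19 ^ N ∈
      (fun t : ℝ => 19 ^ (c + 1) * t) '' Att D0 := by
    intro N
    have h1 : |⌊19 ^ N * x⌋| ≤ 19 ^ (N + c) := by
      have h2 := abs_le.1 hc
      rw [abs_le]
      constructor
      · apply Int.le_floor.2
        push_cast
        rw [pow_add]
        have h3 : (0 : ℝ) < 19 ^ N := by positivity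
        nlinarith
      · have h4 : ((⌊19 ^ N * x⌋ : ℤ) : ℝ) ≤ 19 ^ (N + c) := by
          refine (Int.floor_le _).trans ?_
          rw [pow_add]
          have h3 : (0 : ℝ) < 19 ^ N := by positivity
          nlinarith
        exact_mod_cast h4
    obtain ⟨t, ht, hnt⟩ := int_mem (N + c) _ h1
    refine ⟨t, ht, ?_⟩
    simp only
    rw [hnt, eq_div_iff (by positivity)]
    rw [show N + c + 1 = (c + 1) + N by ring, pow_add _ (c + 1) N]
    ring
  have hlim : Tendsto (fun N : ℕ => ((⌊19 ^ N * x⌋ : ℤ) : ℝ) / 19 ^ N) atTop (𝓝 x) := by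
    have h0 : Tendsto (fun N : ℕ => x - (1 / 19 : ℝ) ^ N) atTop (𝓝 (x - 0)) :=
      tendsto_const_nhds.sub (tendsto_pow_atTop_nhds_zero_of_lt_one (by norm_num) (by norm_num))
    rw [sub_zero] at h0
    apply tendsto_of_tendsto_of_tendsto_of_le_of_le h0 tendsto_const_nhds
    · intro N
      have h3 : (0 : ℝ) < 19 ^ N := by positivity
      simp only
      rw [le_div_iff₀ h3]
      have h4 := Int.sub_one_lt_floor ((19 : ℝ) ^ N * x)
      rw [one_div, inv_pow, sub_mul, inv_mul_cancel₀ h3.ne']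
      linarith
    · intro N
      have h3 : (0 : ℝ) < 19 ^ N := by positivity
      simp only
      rw [div_le_iff₀ h3]
      have h4 := Int.floor_le ((19 : ℝ) ^ N * x)
      linarith
  obtain ⟨t, ht, hxt⟩ := hclosed.mem_of_tendsto hlim (Eventually.of_forall hmem)
  exact ⟨t, ht, hxt.symm⟩

/-- the attractor of `F0` is null. -/
theorem att_null : volume (Att F0) = 0 := by
  have hbd : Att F0 ⊆ Set.Icc (-2) 2 := by
    rintro _ ⟨a, ha, rfl⟩
    exact abs_le.1 (val_abs_le fun i => F0_abs _ (ha i))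
  have hfin : volume (Att F0) ≠ ⊤ := by
    apply ne_top_of_le_ne_top _ (measure_mono hbd)
    rw [Real.volume_Icc]
    exact ENNReal.ofReal_ne_top
  have hsub : Att F0 ⊆ ⋃ f ∈ F0, (fun x : ℝ => 19 * x) ⁻¹' ((fun y : ℝ => y + (-(f : ℝ))) ⁻¹'
      Att F0) := by
    rintro _ ⟨a, ha, rfl⟩
    simp only [Set.mem_iUnion, exists_prop]
    refine ⟨a 0, ha 0, ?_⟩
    refine ⟨fun i => a (i + 1), fun i => ha (i + 1), ?_⟩
    rw [val_step fun i => F0_abs _ (ha i)]
    ring
  have h1 : volume (Att F0) ≤ ∑ f ∈ F0, volume ((fun x : ℝ => 19 * x) ⁻¹'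
      ((fun y : ℝ => y + (-(f : ℝ))) ⁻¹' Att F0)) :=
    (measure_mono hsub).trans (measure_biUnion_finset_le _ _)
  have h2 : ∀ f ∈ F0, volume ((fun x : ℝ => 19 * x) ⁻¹'
      ((fun y : ℝ => y + (-(f : ℝ))) ⁻¹' Att F0)) = ENNReal.ofReal (1 / 19) * volume (Att F0) := by
    intro f _
    rw [Real.volume_preimage_mul_left (by norm_num), measure_preimage_add_right]
    congr 2
    rw [abs_of_pos (by norm_num)]
    norm_num
  rw [Finset.sum_congr rfl h2, Finset.sum_const, F0_card, nsmul_eq_mul, ← mul_assoc] at h1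
  by_contra hne
  have h3 : ((18 : ℕ) : ENNReal) * ENNReal.ofReal (1 / 19) = ENNReal.ofReal (18 / 19) := by
    rw [← ENNReal.ofReal_natCast, ← ENNReal.ofReal_mul (by norm_num)]
    congr 1
    norm_num
  rw [h3] at h1
  have h4 : ENNReal.ofReal (18 / 19) * volume (Att F0) < 1 * volume (Att F0) := by
    apply ENNReal.mul_lt_mul_left hne hfin
    rw [← ENNReal.ofReal_one]
    exact (ENNReal.ofReal_lt_ofReal_iff (by norm_num)).2 (by norm_num)
  rw [one_mul] at h4
  exact absurd h1 (not_le.2 h4)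

theorem shift_mem {S : Finset ℤ} (hS : ∀ a ∈ S, |a| ≤ 20) (h0 : (0 : ℤ) ∈ S) {t : ℝ}
    (ht : t ∈ Att S) (k : ℕ) : ∃ t' ∈ Att S, t = 19 ^ k * t' := by
  induction k with
  | zero => exact ⟨t, ht, by simp⟩
  | succ k ih =>
    obtain ⟨t', ⟨a, ha, rfl⟩, ht'⟩ := ih
    have hb : ∀ i, (fun i : ℕ => match i with | 0 => (0 : ℤ) | i + 1 => a i) i ∈ S := by
      intro i
      cases i with
      | zero => exact h0
      | succ i => exact ha i
    refine ⟨val (fun i : ℕ => match i with | 0 => (0 : ℤ) | i + 1 => a i), ⟨_, hb, rfl⟩, ?_⟩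
    have h2 := val_step fun i => hS _ (hb i)
    rw [h2]
    have h3 : (fun i : ℕ => (fun i : ℕ => match i with | 0 => (0 : ℤ) | i + 1 => a i) (i + 1)) = a :=
      rfl
    rw [h3, ht', pow_succ]
    push_cast
    ring

/-- There is a set `E` of positive reals with `E - E = ℝ` such that the set of all values
`2 e₁ - e₂` with `e₁, e₂ ∈ E` has Lebesgue (outer) measure zero. -/
theorem result : ∃ E : Set ℝ, (∀ e ∈ E, 0 < e) ∧
    {x : ℝ | ∃ e₁ ∈ E, ∃ e₂ ∈ E, x = e₁ - e₂} = Set.univ ∧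
    volume {x : ℝ | ∃ e₁ ∈ E, ∃ e₂ ∈ E, x = 2 * e₁ - e₂} = 0 := by
  have hEabs : ∀ a ∈ E0, |a| ≤ 20 := E0_abs
  refine ⟨{e | ∃ k : ℕ, ∃ t ∈ Att E0, e = 1 + 19 ^ k * t}, ?_, ?_, ?_⟩
  · rintro _ ⟨k, _, ⟨a, ha, rfl⟩, rfl⟩
    have hnn : ∀ a ∈ E0, (0 : ℤ) ≤ a := by decide
    have h1 : 0 ≤ val a := by
      unfold val
      apply tsum_nonneg
      intro i
      have : (0 : ℤ) ≤ a i := hnn _ (ha i)
      have h2 : (0 : ℝ) ≤ (a i : ℝ) := by exact_mod_cast this
      positivity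
    positivity
  · ext x
    simp only [Set.mem_univ, iff_true]
    obtain ⟨k, _, ⟨d, hd, rfl⟩, hx⟩ := real_mem x
    choose a ha b hb hab using fun i => D0_rep (d i) (hd i)
    refine ⟨1 + 19 ^ k * val a, ⟨k, _, ⟨a, ha, rfl⟩, rfl⟩,
      1 + 19 ^ k * val b, ⟨k, _, ⟨b, hb, rfl⟩, rfl⟩, ?_⟩
    have h1 : val d = val a - val b := by
      unfold val
      rw [← (summable_val fun i => hEabs _ (ha i)).tsum_sub (summable_val fun i => hEabs _ (hb i))]
      apply tsum_congr
      intro i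
      rw [hab i]
      push_cast
      ring
    rw [hx, h1]
    ring
  · have hsub : {x : ℝ | ∃ e₁ ∈ {e : ℝ | ∃ k : ℕ, ∃ t ∈ Att E0, e = 1 + 19 ^ k * t},
        ∃ e₂ ∈ {e : ℝ | ∃ k : ℕ, ∃ t ∈ Att E0, e = 1 + 19 ^ k * t}, x = 2 * e₁ - e₂} ⊆
        ⋃ k : ℕ, (fun x : ℝ => x + (-1)) ⁻¹' ((fun x : ℝ => (19 ^ k)⁻¹ * x) ⁻¹' Att F0) := by
      rintro x ⟨e₁, ⟨k, t, ht, rfl⟩, e₂, ⟨l, s, hs, rfl⟩, rfl⟩
      obtain ⟨_, ⟨a, ha, rfl⟩, ht'⟩ := shift_mem hEabs (by decide) ht l
      obtain ⟨_, ⟨b, hb, rfl⟩, hs'⟩ := shift_mem hEabs (by decide) hs k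
      rw [Set.mem_iUnion]
      refine ⟨k + l, fun i => 2 * a i - b i, fun i => F0_mem _ (ha i) _ (hb i), ?_⟩
      have h1 : val (fun i => 2 * a i - b i) = 2 * val a - val b := by
        unfold val
        have h2 := (summable_val fun i => hEabs _ (ha i)).mul_left 2
        rw [← tsum_mul_left, ← h2.tsum_sub (summable_val fun i => hEabs _ (hb i))]
        apply tsum_congr
        intro i
        push_cast
        ring
      rw [h1, ht', hs', pow_add]
      have h3 : (19 : ℝ) ^ k ≠ 0 := by positivity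
      have h4 : (19 : ℝ) ^ l ≠ 0 := by positivity
      field_simp
      ring
    apply measure_mono_null hsub
    rw [measure_iUnion_null_iff]
    intro k
    rw [measure_preimage_add_right, Real.volume_preimage_mul_left (by positivity), att_null,
      mul_zero]

end Pool.Agent.Results.MP_0f2923_nt.NullForm
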